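import Mathlib
import Pool.Agent.helper55.NG.Final

set_option autoImplicit false

/-!
# Maximal spanning times of `k`-thin and of thin sets are comparable

For every `k ≥ 1` and every zero-set `Z` one has
`μ_th(Z) ≤ μ^k_th(Z) ≤ (48 k² + 52 k + 15) μ_th(Z)`.

Sketch of the proof. Classes of row counts and of column counts are the steps of the staircase `Z`;
a site is occupied as soon as the class of its row is at most the class of its column.

* (Lower bounds for `μ_th`.) In a pure dynamics (finitely many rows and columns with enhancements,
  nothing else) keep the lines which are at least as enhanced as the lines of a given site, and add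
  many copies of the two lines of the site. Putting all points on distinct light lines gives
  a thin spanning set which does not occupy the site earlier than the pure dynamics. Hence all
  occupation times of pure dynamics, and the number of steps of `Z` minus one, are at most `μ_th(Z)`.
* (First phase.) Call a class tight if the number of columns which capture it is, up to `k`, enough
  to leave it. Until the first time at which all row classes above some `θ` and all column classes
  below `θ` are tight, the heavy lines follow the pure dynamics. So this time is at most `μ_th(Z)`.
* (Second phase.) After this time every change of a class has a predecessor one unit of time earlier,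
  and the chain of predecessors has length linear in the number of steps of `Z`: this uses a potential
  and the fast lemma (if a column jumps over many tight classes at once, then afterwards every row
  passes these classes in boundedly many steps).
-/

namespace Pool.Agent.Results.MP_bfdaf1_co.ThinComparison

open Pool.Agent.helper55.NG

/-- For every `k ≥ 1` and every zero-set `Z`: every finite spanning set has a (finite) spanning time,
`mu 1 Z = μ_th(Z)` and `mu k Z = μ^k_th(Z)` are the largest spanning times of finite thin,
resp. `k`-thin, spanning sets, and `μ_th(Z) ≤ μ^k_th(Z) ≤ (48 k² + 52 k + 15) μ_th(Z)`. -/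
theorem result (k : ℕ) (hk : 1 ≤ k) (Z : Set (ℕ × ℕ)) (hZ : IsZeroSet Z) :
    (∀ A : Set (ℕ × ℕ), A.Finite → Spans Z A → ∃ τ, IsSpanningTime Z A τ) ∧
    IsGreatest (times 1 Z) (mu 1 Z) ∧ IsGreatest (times k Z) (mu k Z) ∧
    mu 1 Z ≤ mu k Z ∧ mu k Z ≤ (48 * k ^ 2 + 52 * k + 15) * mu 1 Z :=
  ⟨fun _ hA hs => exists_spanningTime hZ hA hs, isGreatest_mu hZ le_rfl, isGreatest_mu hZ hk,
    (isGreatest_mu hZ hk).2 (times_mono hk (isGreatest_mu hZ le_rfl).1), mu_le hZ hk⟩

end Pool.Agent.Results.MP_bfdaf1_co.ThinComparison
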